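import Mathlib

set_option autoImplicit false

namespace Pool.Agent.Results.MP_baf67b_al.HellyDim

open MvPolynomial

universe u v

/-! ### Definitions used by the statement -/

/-- A diagonalizable group over `K`: a group `G` together with an isomorphism `emb` of `G` onto a
Zariski closed subgroup of the diagonal group `(Kˣ)^N`, that is, onto the set of common zeros in
`(Kˣ)^N` of some set of polynomials in the `N` coordinates.  The structure of an algebraic
group on `G` is the one transported along `emb`. -/
structure Diagonalizable (K : Type u) [Field K] (G : Type v) [Group G] where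
  /-- the size of the diagonal group -/
  N : ℕ
  /-- the embedding -/
  emb : G →* (Fin N → Kˣ)
  injective_emb : Function.Injective emb
  closed_range : ∃ S : Set (MvPolynomial (Fin N) K),
    Set.range emb = {t | ∀ P ∈ S, eval (fun i => (t i : K)) P = 0}

namespace Diagonalizable

variable {K : Type u} [Field K] {G : Type v} [Group G] (D : Diagonalizable K G)

/-- The coordinates, in `K`, of an element of `G`. -/
def coord (g : G) (i : Fin D.N) : K := (D.emb g i : Kˣ)

/-- A function `f : G → K` is regular if it is given by a polynomial over `K` in the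
coordinates and their inverses. -/
def IsRegular (f : G → K) : Prop :=
  ∃ P : MvPolynomial (Fin D.N ⊕ Fin D.N) K, ∀ g : G,
    f g = eval (Sum.elim (fun i => D.coord g i) (fun i => (D.coord g i)⁻¹)) P

/-- A subset of `G` is Zariski closed if it is the set of common zeros of some set of regular
functions. -/
def IsZariskiClosed (Z : Set G) : Prop :=
  ∃ F : Set (G → K), (∀ f ∈ F, D.IsRegular f) ∧ Z = {g | ∀ f ∈ F, f g = 0}

theorem isRegular_one : D.IsRegular (fun g => (((1 : G →* Kˣ) g : Kˣ) : K)) :=
  ⟨1, by simp⟩

theorem isRegular_mul {a b : G →* Kˣ} (ha : D.IsRegular (fun g => (a g : K)))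
    (hb : D.IsRegular (fun g => (b g : K))) :
    D.IsRegular (fun g => (((a * b) g : Kˣ) : K)) := by
  obtain ⟨P, hP⟩ := ha
  obtain ⟨Q, hQ⟩ := hb
  exact ⟨P * Q, fun g => by simp [← hP, ← hQ]⟩

theorem isRegular_inv {a : G →* Kˣ} (ha : D.IsRegular (fun g => (a g : K))) :
    D.IsRegular (fun g => (((a⁻¹ : G →* Kˣ) g : Kˣ) : K)) := by
  obtain ⟨P, hP⟩ := ha
  refine ⟨rename Sum.swap P, fun g => ?_⟩
  have h := hP g⁻¹
  rw [eval_rename]
  simp only [map_inv] at h
  show (((a g)⁻¹ : Kˣ) : K) = _
  rw [h]
  congr 2
  funext i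
  rcases i with i | i <;> simp [coord]

/-- The character group `X(G)`: the group homomorphisms `G → Kˣ` which are regular functions,
with pointwise multiplication. -/
def charGroup : Subgroup (G →* Kˣ) where
  carrier := {χ | D.IsRegular (fun g => (χ g : K))}
  one_mem' := D.isRegular_one
  mul_mem' := D.isRegular_mul
  inv_mem' := D.isRegular_inv

/-- A Zariski closed coset in `G`: a set `gH` with `g ∈ G` and `H ≤ G` a Zariski closed
subgroup. -/
def IsClosedCoset (C : Set G) : Prop :=
  ∃ (g : G) (H : Subgroup G), D.IsZariskiClosed (H : Set G) ∧ C = {x | ∃ h ∈ H, x = g * h}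

/-- The defining property of the Helly dimension: whenever finitely many Zariski closed cosets
in `G` have empty intersection, some subfamily of at most `d` of them already has empty
intersection. -/
def HellyProperty (d : ℕ) : Prop :=
  ∀ (m : ℕ) (C : Fin m → Set G), (∀ i, D.IsClosedCoset (C i)) → ⋂ i, C i = ∅ →
    ∃ T : Finset (Fin m), T.card ≤ d ∧ ⋂ i ∈ T, C i = ∅

end Diagonalizable

/-! ### Relations in finitely generated abelian groups -/

section Relations

/-- `r + 1` elements of an `r`-generated abelian group satisfy an integral relation in which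
some coefficient is prime to `p`. -/
theorem exists_relation {X : Type*} [AddCommGroup X] (S : Finset X)
    (hS : AddSubgroup.closure (S : Set X) = ⊤) {ι : Type*} (B : Finset ι) (x : ι → X)
    (hB : S.card < B.card) (p : ℕ) (hp : p.Prime) :
    ∃ c : ι → ℤ, ∑ j ∈ B, c j • x j = 0 ∧ ∃ j ∈ B, ¬ (p : ℤ) ∣ c j := by
  classical
  -- coordinates
  have hcoord : ∀ z : X, ∃ a : S → ℤ, z = ∑ s : S, a s • (s : X) := by
    intro z
    have hz : z ∈ Submodule.span ℤ (S : Set X) := by
      have h1 : z ∈ AddSubgroup.closure (S : Set X) := by rw [hS]; trivial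
      rwa [← Submodule.span_int_eq_addSubgroupClosure, Submodule.mem_toAddSubgroup] at h1
    rw [Submodule.mem_span_finset] at hz
    obtain ⟨f, -, hf⟩ := hz
    refine ⟨fun s => f s, ?_⟩
    rw [← hf, ← Finset.sum_coe_sort]
  choose a ha using hcoord
  have hdep : ¬ LinearIndependent ℤ (fun j : B => a (x j)) := by
    intro hli
    have h1 := hli.fintype_card_le_finrank
    simp only [Fintype.card_coe, Module.finrank_fintype_fun_eq_card] at h1
    omega
  rw [Fintype.not_linearIndependent_iff] at hdep
  obtain ⟨g, hg, j0, hj0⟩ := hdep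
  have hne : (Finset.univ : Finset B).Nonempty := ⟨j0, Finset.mem_univ _⟩
  obtain ⟨g', hg', hgcd⟩ := Finset.extract_gcd g hne
  have hd0 : (Finset.univ : Finset B).gcd g ≠ 0 := by
    intro h0
    rw [Finset.gcd_eq_zero_iff] at h0
    exact hj0 (h0 j0 (Finset.mem_univ _))
  have hrel : ∑ j : B, g' j • a (x j) = 0 := by
    have h2 : (Finset.univ : Finset B).gcd g • ∑ j : B, g' j • a (x j) = 0 := by
      rw [Finset.smul_sum, ← hg]
      refine Finset.sum_congr rfl fun j _ => ?_
      rw [smul_smul, ← hg' j (Finset.mem_univ _)]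
    exact (smul_eq_zero.mp h2).resolve_left hd0
  refine ⟨fun j => if h : j ∈ B then g' ⟨j, h⟩ else 0, ?_, ?_⟩
  · rw [← Finset.sum_coe_sort]
    have h3 : ∀ j : B, (if h : (j : ι) ∈ B then g' ⟨j, h⟩ else 0) • x j
        = ∑ s : S, (g' j • a (x j)) s • (s : X) := by
      intro j
      rw [dif_pos j.2]
      conv_lhs => rw [ha (x j)]
      rw [Finset.smul_sum]
      refine Finset.sum_congr rfl fun s _ => ?_
      rw [smul_smul]; rfl
    rw [Finset.sum_congr rfl fun j _ => h3 j, Finset.sum_comm]
    refine Finset.sum_eq_zero fun s _ => ?_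
    rw [← Finset.sum_smul]
    have h4 := congrFun hrel s
    rw [Finset.sum_apply] at h4
    rw [h4]; simp
  · by_contra hcon
    push Not at hcon
    have h5 : (p : ℤ) ∣ (Finset.univ : Finset B).gcd g' := by
      refine Finset.dvd_gcd fun j _ => ?_
      have := hcon j j.2
      rwa [dif_pos j.2] at this
    rw [hgcd] at h5
    have h6 : (p : ℤ) ∣ ((1 : ℕ) : ℤ) := by simpa using h5
    rw [Int.natCast_dvd_natCast] at h6
    exact hp.one_lt.ne' (Nat.dvd_one.mp h6)

/-- Key lemma.  If `X` is an `r`-generated abelian group, then the relations between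
finitely many elements of `X` follow from those of length at most `r + 1`. -/
theorem relation_lemma {X A : Type*} [AddCommGroup X] [AddCommGroup A] (S : Finset X)
    (hS : AddSubgroup.closure (S : Set X) = ⊤) {ι : Type*} [Fintype ι] (x : ι → X) (a : ι → A)
    (H : ∀ T : Finset ι, T.card ≤ S.card + 1 → ∀ m : ι → ℤ, (∀ k ∉ T, m k = 0) →
      ∑ k, m k • x k = 0 → ∑ k, m k • a k = 0) :
    ∑ k, x k = 0 → ∑ k, a k = 0 := by
  classical
  intro hx
  -- for every prime p some multiple prime to p kills the sum
  have key : ∀ p : ℕ, p.Prime → ∃ n : ℤ, ¬ (p : ℤ) ∣ n ∧ n • ∑ k, a k = 0 := by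
    intro p hp
    have hpZ : Prime (p : ℤ) := Nat.prime_iff_prime_int.mp hp
    -- a minimal spanning subset
    let Q : Finset ι → Prop := fun B =>
      ∃ n : ℤ, ¬ (p : ℤ) ∣ n ∧ ∀ i, ∃ c : ι → ℤ, n • x i = ∑ j ∈ B, c j • x j
    have hQ0 : Q Finset.univ := by
      refine ⟨1, ?_, fun i => ⟨fun j => if j = i then 1 else 0, ?_⟩⟩
      · intro h1
        exact hpZ.not_isUnit (isUnit_of_dvd_one h1)
      · simp
    obtain ⟨B, hBmem, hBmin⟩ := Finset.exists_min_image
      (Finset.univ.filter Q : Finset (Finset ι)) Finset.card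
      ⟨Finset.univ, by simpa using hQ0⟩
    have hQB : Q B := (Finset.mem_filter.mp hBmem).2
    have hBcard : B.card ≤ S.card := by
      by_contra hlt
      push Not at hlt
      obtain ⟨c, hc, j0, hj0, hpc⟩ := exists_relation S hS B x hlt p hp
      obtain ⟨n, hn, hspan⟩ := hQB
      have hQ' : Q (B.erase j0) := by
        refine ⟨c j0 * n, ?_, fun i => ?_⟩
        · intro hdvd
          rcases hpZ.dvd_or_dvd hdvd with h | h
          · exact hpc h
          · exact hn h
        · obtain ⟨d, hd⟩ := hspan i
          refine ⟨fun j => c j0 * d j - d j0 * c j, ?_⟩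
          rw [mul_smul, hd]
          have e1 : ∑ j ∈ B, d j • x j = d j0 • x j0 + ∑ j ∈ B.erase j0, d j • x j :=
            (Finset.add_sum_erase _ _ hj0).symm
          have e2 : c j0 • x j0 = - ∑ j ∈ B.erase j0, c j • x j := by
            have := Finset.add_sum_erase B (fun j => c j • x j) hj0
            rw [hc] at this
            exact eq_neg_of_add_eq_zero_left this
          rw [e1, smul_add, smul_comm, e2]
          simp only [sub_smul, Finset.sum_sub_distrib, mul_smul, Finset.smul_sum, smul_neg]
          abel
      have h1 := hBmin (B.erase j0) (by simpa using hQ')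
      have h2 := Finset.card_erase_lt_of_mem hj0
      omega
    obtain ⟨n, hn, hspan⟩ := hQB
    choose c hc using hspan
    refine ⟨n, hn, ?_⟩
    -- relations supported on `insert i B`
    have rel1 : ∀ i, i ∉ B → n • a i = ∑ j ∈ B, c i j • a j := by
      intro i hi
      have h1 := H (insert i B) (by rw [Finset.card_insert_of_notMem hi]; omega)
        (fun k => if k = i then n else if k ∈ B then - c i k else 0) (by
          intro k hk
          rw [Finset.mem_insert, not_or] at hk
          simp [hk.1, hk.2]) (by
          have : ∀ k, (if k = i then n else if k ∈ B then - c i k else 0) • x k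
              = (if k = i then n • x k else 0) - (if k ∈ B then c i k • x k else 0) := by
            intro k
            by_cases h1 : k = i
            · subst h1; simp [hi]
            · by_cases h2 : k ∈ B <;> simp [h1, h2]
          simp only [this, Finset.sum_sub_distrib, Finset.sum_ite_eq', Finset.mem_univ, if_true,
            Finset.sum_ite_mem, Finset.univ_inter]
          rw [hc i]; simp)
      have : ∀ k, (if k = i then n else if k ∈ B then - c i k else 0) • a k
          = (if k = i then n • a k else 0) - (if k ∈ B then c i k • a k else 0) := by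
        intro k
        by_cases h1 : k = i
        · subst h1; simp [hi]
        · by_cases h2 : k ∈ B <;> simp [h1, h2]
      simp only [this, Finset.sum_sub_distrib, Finset.sum_ite_eq', Finset.mem_univ, if_true,
        Finset.sum_ite_mem, Finset.univ_inter] at h1
      exact sub_eq_zero.mp h1
    -- a relation supported on `B`
    have rel2 := H B (by omega)
      (fun k => if k ∈ B then n + ∑ i ∈ Bᶜ, c i k else 0) (by
        intro k hk; simp [hk]) (by
        have e1 : ∀ k, (if k ∈ B then n + ∑ i ∈ Bᶜ, c i k else 0) • x k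
            = if k ∈ B then (n • x k + ∑ i ∈ Bᶜ, c i k • x k) else 0 := by
          intro k
          by_cases h2 : k ∈ B <;> simp [h2, add_smul, Finset.sum_smul]
        simp only [e1, Finset.sum_ite_mem, Finset.univ_inter, Finset.sum_add_distrib]
        rw [Finset.sum_comm]
        simp only [← hc]
        rw [Finset.sum_add_sum_compl B (fun k => n • x k), ← Finset.smul_sum, hx, smul_zero])
    have e2 : ∀ k, (if k ∈ B then n + ∑ i ∈ Bᶜ, c i k else 0) • a k
        = if k ∈ B then (n • a k + ∑ i ∈ Bᶜ, c i k • a k) else 0 := by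
      intro k
      by_cases h2 : k ∈ B <;> simp [h2, add_smul, Finset.sum_smul]
    simp only [e2, Finset.sum_ite_mem, Finset.univ_inter, Finset.sum_add_distrib] at rel2
    rw [Finset.sum_comm] at rel2
    rw [Finset.smul_sum, ← Finset.sum_add_sum_compl B]
    rw [← rel2]
    congr 1
    refine Finset.sum_congr rfl fun i hi => ?_
    exact rel1 i (by simpa using hi)
  -- conclude
  by_contra hne
  have hord : addOrderOf (∑ k, a k) ≠ 1 := by
    rwa [ne_eq, AddMonoid.addOrderOf_eq_one_iff]
  obtain ⟨p, hp, hpd⟩ := Nat.exists_prime_and_dvd hord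
  obtain ⟨n, hn, hna⟩ := key p hp
  apply hn
  have h1 : ((addOrderOf (∑ k, a k) : ℕ) : ℤ) ∣ n := addOrderOf_dvd_iff_zsmul_eq_zero.mpr hna
  exact (Int.natCast_dvd_natCast.mpr hpd).trans h1

end Relations

/-! ### Characters and duality -/

section Duality

variable {K : Type u} [Field K]

/-- The monomial character attached to an exponent vector. -/
noncomputable def monoChar {H : Type*} [Group H] {ι : Type*} [Fintype ι] (ρ : ι → (H →* Kˣ))
    (m : ι →₀ ℕ) : H →* Kˣ := ∏ i, ρ i ^ m i

theorem monoChar_apply {H : Type*} [Group H] {ι : Type*} [Fintype ι] (ρ : ι → (H →* Kˣ))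
    (m : ι →₀ ℕ) (h : H) : ((monoChar ρ m h : Kˣ) : K) = ∏ i, (ρ i h : K) ^ m i := by
  simp [monoChar]

/-- Linear independence of characters in the form used below. -/
theorem dedekind_sum {H : Type*} [Group H] {α : Type*} (s : Finset α) (χ : α → (H →* Kˣ))
    (c : α → K) (hc : ∀ h : H, ∑ m ∈ s, c m * (χ m h : K) = 0) (v : α → K)
    (hv : ∀ m ∈ s, ∀ m' ∈ s, χ m = χ m' → v m = v m') : ∑ m ∈ s, c m * v m = 0 := by
  classical
  let emb : (H →* Kˣ) → (H →* K) := fun ψ => (Units.coeHom K).comp ψ
  have hemb : Function.Injective emb := by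
    intro ψ ψ' h
    ext g
    exact DFunLike.congr_fun h g
  have hLI := linearIndependent_monoidHom H K
  rw [linearIndependent_iff'] at hLI
  have h1 : ∑ ψ ∈ s.image (fun m => emb (χ m)),
      (∑ m ∈ s with emb (χ m) = ψ, c m) • (ψ : H → K) = 0 := by
    funext h
    rw [Finset.sum_apply, Pi.zero_apply, ← hc h,
      ← Finset.sum_fiberwise_of_maps_to (s := s) (t := s.image (fun m => emb (χ m)))
        (g := fun m => emb (χ m)) (fun m hm => Finset.mem_image_of_mem _ hm)]
    refine Finset.sum_congr rfl fun ψ _ => ?_
    rw [Pi.smul_apply, smul_eq_mul, Finset.sum_mul]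
    refine Finset.sum_congr rfl fun m hm => ?_
    rw [← (Finset.mem_filter.mp hm).2]
    rfl
  have h2 := hLI _ _ h1
  rw [← Finset.sum_fiberwise_of_maps_to (s := s) (t := s.image (fun m => emb (χ m)))
        (g := fun m => emb (χ m)) (fun m hm => Finset.mem_image_of_mem _ hm)]
  refine Finset.sum_eq_zero fun ψ hψ => ?_
  obtain ⟨m0, hm0, rfl⟩ := Finset.mem_image.mp hψ
  have h3 : ∀ m ∈ s.filter (fun m => emb (χ m) = emb (χ m0)), c m * v m = c m * v m0 := by
    intro m hm
    rw [hv m (Finset.mem_filter.mp hm).1 m0 hm0 (hemb (Finset.mem_filter.mp hm).2)]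
  rw [Finset.sum_congr rfl h3, ← Finset.sum_mul, h2 _ hψ, zero_mul]

variable {G : Type v} [Group G] (D : Diagonalizable K G)

/-- The coordinate characters. -/
def coordChar (i : Fin D.N) : G →* Kˣ := (Pi.evalMonoidHom (fun _ : Fin D.N => Kˣ) i).comp D.emb

theorem coordChar_apply (i : Fin D.N) (g : G) : coordChar D i g = D.emb g i := rfl

theorem coordChar_mem (i : Fin D.N) : coordChar D i ∈ D.charGroup :=
  ⟨X (Sum.inl i), fun g => by simp [coordChar, Diagonalizable.coord]⟩

/-- Coordinates and inverse coordinates as characters. -/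
def coordChar2 : Fin D.N ⊕ Fin D.N → (G →* Kˣ) :=
  Sum.elim (coordChar D) (fun i => (coordChar D i)⁻¹)

theorem coordChar2_mem (i : Fin D.N ⊕ Fin D.N) : coordChar2 D i ∈ D.charGroup := by
  rcases i with i | i
  · exact coordChar_mem D i
  · exact Subgroup.inv_mem _ (coordChar_mem D i)

theorem monoChar2_apply (m : (Fin D.N ⊕ Fin D.N) →₀ ℕ) (g : G) :
    ((monoChar (coordChar2 D) m g : Kˣ) : K) =
      ∏ i, (Sum.elim (fun i => D.coord g i) (fun i => (D.coord g i)⁻¹) i) ^ m i := by
  rw [monoChar_apply]
  refine Finset.prod_congr rfl fun i _ => ?_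
  rcases i with i | i <;> simp [coordChar2, coordChar, Diagonalizable.coord]

theorem monoChar2_mem (m : (Fin D.N ⊕ Fin D.N) →₀ ℕ) :
    monoChar (coordChar2 D) m ∈ D.charGroup :=
  Subgroup.prod_mem _ fun i _ => Subgroup.pow_mem _ (coordChar2_mem D i) _

/-- The character group is generated by the coordinate characters. -/
theorem closure_coordChar :
    Subgroup.closure (Set.range (coordChar D)) = D.charGroup := by
  classical
  apply le_antisymm
  · rw [Subgroup.closure_le]
    rintro _ ⟨i, rfl⟩
    exact coordChar_mem D i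
  · intro χ hχ
    obtain ⟨P, hP⟩ := hχ
    have hmono : ∀ m : (Fin D.N ⊕ Fin D.N) →₀ ℕ, monoChar (coordChar2 D) m ∈
        Subgroup.closure (Set.range (coordChar D)) := by
      intro m
      refine Subgroup.prod_mem _ fun i _ => Subgroup.pow_mem _ ?_ _
      rcases i with i | i
      · exact Subgroup.subset_closure ⟨i, rfl⟩
      · exact Subgroup.inv_mem _ (Subgroup.subset_closure ⟨i, rfl⟩)
    by_cases hex : ∃ m ∈ P.support, monoChar (coordChar2 D) m = χ
    · obtain ⟨m, -, rfl⟩ := hex
      exact hmono m
    · exfalso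
      push Not at hex
      -- index set: none for χ, some m for the monomials
      have h := dedekind_sum (K := K) (H := G)
        (s := insert none (P.support.image some))
        (χ := fun o : Option ((Fin D.N ⊕ Fin D.N) →₀ ℕ) =>
          o.elim χ (fun m => monoChar (coordChar2 D) m))
        (c := fun o => o.elim (-1) (fun m => P.coeff m))
        (hc := by
          intro g
          rw [Finset.sum_insert (by simp), Finset.sum_image (by intro a _ b _ h; simpa using h)]
          have h1 := hP g
          simp only at h1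
          rw [eval_eq'] at h1
          simp only [Option.elim_none, Option.elim_some]
          rw [h1]
          rw [neg_one_mul, neg_add_eq_zero]
          refine Finset.sum_congr rfl fun m _ => ?_
          rw [monoChar2_apply])
        (v := fun o => o.elim 1 (fun _ => 0))
        (hv := by
          intro m hm m' hm' h
          rcases m with _ | m <;> rcases m' with _ | m' <;> simp only [Option.elim_none,
            Option.elim_some] at h ⊢
          · exfalso
            refine hex m' ?_ h.symm
            simpa using hm'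
          · exfalso
            refine hex m ?_ h
            simpa using hm)
      rw [Finset.sum_insert (by simp), Finset.sum_image (by intro a _ b _ h; simpa using h)] at h
      simp at h

/-- Duality: every homomorphism `X(G) → Kˣ` is evaluation at a point of `G`. -/
theorem exists_point (f : D.charGroup →* Kˣ) : ∃ g : G, ∀ χ : D.charGroup, χ.1 g = f χ := by
  obtain ⟨S, hS⟩ := D.closed_range
  let t : Fin D.N → Kˣ := fun i => f ⟨coordChar D i, coordChar_mem D i⟩
  have hmono : ∀ m : Fin D.N →₀ ℕ, ∃ hm : monoChar (coordChar D) m ∈ D.charGroup,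
      ((f ⟨monoChar (coordChar D) m, hm⟩ : Kˣ) : K) = ∏ i, (t i : K) ^ m i := by
    intro m
    refine ⟨Subgroup.prod_mem _ fun i _ => Subgroup.pow_mem _ (coordChar_mem D i) _, ?_⟩
    have : (⟨monoChar (coordChar D) m, Subgroup.prod_mem _ fun i _ =>
        Subgroup.pow_mem _ (coordChar_mem D i) _⟩ : D.charGroup)
        = ∏ i, (⟨coordChar D i, coordChar_mem D i⟩ : D.charGroup) ^ m i := by
      apply Subtype.ext
      simp [monoChar]
    rw [this, map_prod]
    simp only [map_pow, Units.coe_prod, Units.val_pow_eq_pow_val, t]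
  have ht : t ∈ Set.range D.emb := by
    rw [hS]
    intro P hP
    rw [eval_eq']
    refine dedekind_sum (K := K) (H := G) P.support (fun m => monoChar (coordChar D) m)
      (fun m => P.coeff m) ?_ (fun m => ∏ i, (t i : K) ^ m i) ?_
    · intro g
      have h1 : D.emb g ∈ Set.range D.emb := ⟨g, rfl⟩
      rw [hS] at h1
      have h2 := h1 P hP
      rw [eval_eq'] at h2
      rw [← h2]
      refine Finset.sum_congr rfl fun m _ => ?_
      rw [monoChar_apply]
      rfl
    · intro m _ m' _ h
      obtain ⟨hm, e⟩ := hmono m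
      obtain ⟨hm', e'⟩ := hmono m'
      rw [← e, ← e']
      congr 3
  obtain ⟨g, hg⟩ := ht
  refine ⟨g, ?_⟩
  -- both sides are homs agreeing on generators
  rintro ⟨χ, hχ⟩
  have hχ' := hχ
  rw [← closure_coordChar] at hχ'
  induction hχ' using Subgroup.closure_induction with
  | mem x hx =>
    obtain ⟨i, rfl⟩ := hx
    exact congrFun hg i
  | one =>
    have : (⟨1, hχ⟩ : D.charGroup) = 1 := rfl
    rw [this, map_one]; rfl
  | mul x y hx hy ihx ihy =>
    rw [closure_coordChar] at hx hy
    have : (⟨x * y, hχ⟩ : D.charGroup) = ⟨x, hx⟩ * ⟨y, hy⟩ := rfl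
    rw [this, map_mul, ← ihx hx, ← ihy hy]; rfl
  | inv x hx ih =>
    rw [closure_coordChar] at hx
    have : (⟨x⁻¹, hχ⟩ : D.charGroup) = ⟨x, hx⟩⁻¹ := rfl
    rw [this, map_inv, ← ih hx]; rfl

/-- A Zariski closed subgroup `H ≤ G` is cut out by the characters of `G` trivial on it. -/
theorem mem_of_characters {H : Subgroup G} (hH : D.IsZariskiClosed (H : Set G)) (g : G)
    (hg : ∀ χ : D.charGroup, (∀ h ∈ H, χ.1 h = 1) → χ.1 g = 1) : g ∈ H := by
  obtain ⟨F, hF, hHF⟩ := hH
  have : g ∈ (H : Set G) := by
    rw [hHF]
    intro f hf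
    obtain ⟨P, hP⟩ := hF f hf
    rw [hP, eval_eq']
    refine dedekind_sum (K := K) (H := H) P.support
      (fun m => (monoChar (coordChar2 D) m).comp H.subtype)
      (fun m => P.coeff m) ?_ _ ?_
    · intro h
      have h1 : h.1 ∈ (H : Set G) := h.2
      rw [hHF] at h1
      have h2 := h1 f hf
      rw [hP, eval_eq'] at h2
      rw [← h2]
      refine Finset.sum_congr rfl fun m _ => ?_
      rw [MonoidHom.comp_apply, monoChar2_apply]
      rfl
    · intro m _ m' _ h
      have h1 := hg ⟨monoChar (coordChar2 D) m / monoChar (coordChar2 D) m',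
        Subgroup.div_mem _ (monoChar2_mem D m) (monoChar2_mem D m')⟩ (by
          intro k hk
          have h2 := DFunLike.congr_fun h ⟨k, hk⟩
          rw [MonoidHom.div_apply, div_eq_one]
          exact h2)
      rw [MonoidHom.div_apply, div_eq_one] at h1
      have h3 := congrArg (Units.val) h1
      rw [monoChar2_apply, monoChar2_apply] at h3
      exact h3
  exact this

end Duality

/-! ### The upper bound -/

section Upper

variable {K : Type u} [Field K] {G : Type v} [Group G] (D : Diagonalizable K G)

theorem charGroup_fg : Group.FG D.charGroup := by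
  rw [Group.fg_iff_subgroup_fg, ← closure_coordChar]
  exact Subgroup.fg_iff _ |>.mpr ⟨_, rfl, Set.finite_range _⟩

variable [IsAlgClosed K]

/-- `Kˣ` is divisible for algebraically closed `K`, written additively. -/
theorem baer_units : Module.Baer ℤ (Additive Kˣ) := by
  have hdiv : ∀ n : ℤ, n ≠ 0 → Function.Surjective (fun a : Additive Kˣ => n • a) := by
    intro n hn a
    have key : ∀ (k : ℕ), k ≠ 0 → ∀ u : Kˣ, ∃ w : Kˣ, w ^ k = u := by
      intro k hk u
      obtain ⟨z, hz⟩ := IsAlgClosed.exists_pow_nat_eq (u : K) (Nat.pos_of_ne_zero hk)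
      have hz0 : z ≠ 0 := by
        rintro rfl
        rw [zero_pow hk] at hz
        exact u.ne_zero hz.symm
      exact ⟨Units.mk0 z hz0, Units.ext (by simpa using hz)⟩
    obtain ⟨w, hw⟩ := key n.natAbs (Int.natAbs_ne_zero.mpr hn) a.toMul
    rcases Int.natAbs_eq n with h | h
    · refine ⟨Additive.ofMul w, ?_⟩
      show n • Additive.ofMul w = a
      rw [h, natCast_zsmul, ← ofMul_pow, hw]; rfl
    · refine ⟨- Additive.ofMul w, ?_⟩
      show n • (- Additive.ofMul w) = a
      rw [h, neg_smul, smul_neg, neg_neg, natCast_zsmul, ← ofMul_pow, hw]; rfl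
  let _ : DivisibleBy (Additive Kˣ) ℤ := AddCommGroup.divisibleByIntOfSMulTopEqTop _ (by
    intro n hn
    rw [eq_top_iff]
    intro a _
    obtain ⟨b, hb⟩ := hdiv n hn a
    exact ⟨b, trivial, hb⟩)
  exact Module.Baer.of_divisible _

/-- The upper bound `κ(G) ≤ 1 + rk(X(G))`. -/
theorem helly_upper (S : Finset D.charGroup)
    (hS : Subgroup.closure (S : Set D.charGroup) = ⊤) : D.HellyProperty (1 + S.card) := by
  classical
  intro m C hC hempty
  choose g H hHcl hCeq using hC
  by_contra hcon
  push Not at hcon
  -- the annihilators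
  let Y : Fin m → AddSubgroup (Additive D.charGroup) := fun i =>
    { carrier := {χ | ∀ h ∈ H i, χ.toMul.1 h = 1}
      zero_mem' := fun h _ => rfl
      add_mem' := by
        intro a b ha hb h hh
        show (a.toMul.1 * b.toMul.1) h = 1
        rw [MonoidHom.mul_apply, ha h hh, hb h hh, one_mul]
      neg_mem' := by
        intro a ha h hh
        show (a.toMul.1⁻¹) h = 1
        rw [MonoidHom.inv_apply, ha h hh, inv_one] }
  let φ : ∀ i, Y i →+ Additive Kˣ := fun i =>
    { toFun := fun χ => Additive.ofMul (χ.1.toMul.1 (g i))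
      map_zero' := rfl
      map_add' := fun a b => rfl }
  let σ : (∀ i, Y i) →+ Additive D.charGroup :=
    { toFun := fun y => ∑ i, (y i : Additive D.charGroup)
      map_zero' := by simp
      map_add' := fun a b => by simp [Finset.sum_add_distrib] }
  let Φ : (∀ i, Y i) →+ Additive Kˣ :=
    { toFun := fun y => ∑ i, φ i (y i)
      map_zero' := by simp
      map_add' := fun a b => by simp [Finset.sum_add_distrib] }
  -- generators in additive form
  let S' : Finset (Additive D.charGroup) := S.map ⟨Additive.ofMul, Additive.ofMul.injective⟩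
  have hS'card : S'.card = S.card := Finset.card_map _
  have hS' : AddSubgroup.closure (S' : Set (Additive D.charGroup)) = ⊤ := by
    have h1 : (S' : Set (Additive D.charGroup)) = Additive.toMul ⁻¹' (S : Set D.charGroup) := by
      ext z
      simp only [S', Finset.coe_map, Function.Embedding.coeFn_mk, Set.mem_image, Finset.mem_coe,
        Set.mem_preimage]
      constructor
      · rintro ⟨w, hw, rfl⟩; exact hw
      · intro hz; exact ⟨z.toMul, hz, rfl⟩
    rw [h1, ← Subgroup.toAddSubgroup_closure, hS]
    rfl
  have hker : σ.ker ≤ Φ.ker := by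
    intro y hy
    have hy' : ∑ i, (y i : Additive D.charGroup) = 0 := hy
    show ∑ i, φ i (y i) = 0
    refine relation_lemma S' hS' (fun i => (y i : Additive D.charGroup)) (fun i => φ i (y i))
      ?_ hy'
    intro T hT c hc hrel
    rw [hS'card] at hT
    obtain ⟨x, hxT⟩ := hcon T (by omega)
    rw [Set.mem_iInter₂] at hxT
    -- for k ∈ T, evaluating at g k is evaluating at x
    have hval : ∀ k ∈ T, φ k (y k) = Additive.ofMul ((y k).1.toMul.1 x) := by
      intro k hk
      have h1 := hxT k hk
      rw [hCeq k] at h1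
      obtain ⟨h, hh, hx⟩ := h1
      rw [hx, map_mul, (y k).2 h hh, mul_one]
      rfl
    have hE : ∀ k, c k • φ k (y k) = c k • Additive.ofMul ((y k).1.toMul.1 x) := by
      intro k
      by_cases hk : k ∈ T
      · rw [hval k hk]
      · rw [hc k hk, zero_smul, zero_smul]
    rw [Finset.sum_congr rfl fun k _ => hE k]
    let ev : Additive D.charGroup →+ Additive Kˣ :=
      { toFun := fun χ => Additive.ofMul (χ.toMul.1 x)
        map_zero' := rfl
        map_add' := fun a b => rfl }
    have h3 := congrArg ev hrel
    rw [map_sum, map_zero] at h3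
    rw [← h3]
    refine Finset.sum_congr rfl fun k _ => ?_
    rw [map_zsmul]
    rfl
  -- extend to a homomorphism on the whole character group
  obtain ⟨f, hf⟩ := (baer_units (K := K)).extension_property_addMonoidHom
    (QuotientAddGroup.kerLift σ) (QuotientAddGroup.kerLift_injective σ)
    (QuotientAddGroup.lift σ.ker Φ hker)
  have hfσ : ∀ y, f (σ y) = Φ y := by
    intro y
    exact DFunLike.congr_fun hf (QuotientAddGroup.mk y)
  obtain ⟨x, hx⟩ := exists_point D
    ({ toFun := fun χ => (f (Additive.ofMul χ)).toMul
       map_one' := by rw [ofMul_one, map_zero]; rfl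
       map_mul' := fun a b => by rw [ofMul_mul, map_add]; rfl } : D.charGroup →* Kˣ)
  have hxval : ∀ i, ∀ χ : Y i, χ.1.toMul.1 x = χ.1.toMul.1 (g i) := by
    intro i χ
    rw [hx]
    show (f χ.1).toMul = _
    have h1 := hfσ (Pi.single i χ)
    have h2 : σ (Pi.single i χ) = χ.1 := by
      show ∑ k, ((Pi.single i χ : ∀ i, Y i) k : Additive D.charGroup) = χ.1
      rw [Finset.sum_eq_single i]
      · rw [Pi.single_eq_same]
      · intro k _ hk
        rw [Pi.single_eq_of_ne hk]; rfl
      · intro h; exact absurd (Finset.mem_univ i) h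
    have h3 : Φ (Pi.single i χ) = φ i χ := by
      show ∑ k, φ k ((Pi.single i χ : ∀ i, Y i) k) = φ i χ
      rw [Finset.sum_eq_single i]
      · rw [Pi.single_eq_same]
      · intro k _ hk
        rw [Pi.single_eq_of_ne hk, map_zero]
      · intro h; exact absurd (Finset.mem_univ i) h
    rw [h2, h3] at h1
    rw [h1]
    rfl
  have hxmem : x ∈ ⋂ i, C i := by
    refine Set.mem_iInter.mpr fun i => ?_
    rw [hCeq i]
    refine ⟨(g i)⁻¹ * x, ?_, by simp⟩
    refine mem_of_characters D (hHcl i) _ ?_
    intro χ hχ
    have h2 := hxval i ⟨Additive.ofMul χ, hχ⟩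
    have h3 : χ.1 x = χ.1 (g i) := h2
    rw [map_mul, map_inv, h3, inv_mul_cancel]
  rw [hempty] at hxmem
  exact hxmem

end Upper

/-! ### The lower bound -/

section Lower

/-- A minimal generating family of a finitely generated abelian group can be chosen with
diagonal relations, and the diagonal entries then generate a proper ideal. -/
theorem exists_diag {X : Type*} [AddCommGroup X] {r : ℕ} (S : Finset X) (hSc : S.card = r)
    (hS : AddSubgroup.closure (S : Set X) = ⊤)
    (hmin : ∀ S' : Finset X, AddSubgroup.closure (S' : Set X) = ⊤ → r ≤ S'.card) (hr : 0 < r) :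
    ∃ (x : Fin r → X) (A : Fin r → ℤ), AddSubgroup.closure (Set.range x) = ⊤ ∧
      (∀ c : Fin r → ℤ, ∑ j, c j • x j = 0 ↔ ∀ j, A j ∣ c j) ∧
      Ideal.span (Set.range A) ≠ ⊤ := by
  classical
  let e : Fin r ≃ S := (finCongr hSc.symm).trans S.equivFin.symm
  let π : (Fin r → ℤ) →ₗ[ℤ] X := Fintype.linearCombination ℤ (fun j => (e j : X))
  have hπapp : ∀ c, π c = ∑ j, c j • (e j : X) := fun c => by
    simp [π, Fintype.linearCombination_apply]
  have hπsurj : LinearMap.range π = ⊤ := by
    rw [show LinearMap.range π = Submodule.span ℤ (Set.range fun j => (e j : X)) from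
      Fintype.range_linearCombination ℤ _]
    have h1 : Set.range (fun j => (e j : X)) = (S : Set X) := by
      ext z; constructor
      · rintro ⟨j, rfl⟩; exact (e j).2
      · intro hz; exact ⟨e.symm ⟨z, hz⟩, by simp⟩
    rw [h1]
    apply Submodule.toAddSubgroup_injective
    rw [Submodule.span_int_eq_addSubgroupClosure, hS]; rfl
  obtain ⟨n, snf⟩ := Submodule.smithNormalForm (Pi.basisFun ℤ (Fin r)) (LinearMap.ker π)
  let x : Fin r → X := fun j => π (snf.bM j)
  let A : Fin r → ℤ := fun j => if h : ∃ i, snf.f i = j then snf.a h.choose else 0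
  have hAf : ∀ i, A (snf.f i) = snf.a i := by
    intro i
    have h : ∃ i', snf.f i' = snf.f i := ⟨i, rfl⟩
    show (if h : ∃ i', snf.f i' = snf.f i then snf.a h.choose else 0) = snf.a i
    rw [dif_pos h]
    congr 1
    exact snf.f.injective h.choose_spec
  have hxsum : ∀ c : Fin r → ℤ, ∑ j, c j • x j = π (∑ j, c j • snf.bM j) := by
    intro c
    rw [map_sum]
    exact Finset.sum_congr rfl fun j _ => (map_smul π _ _).symm
  have hrel : ∀ c : Fin r → ℤ, ∑ j, c j • x j = 0 ↔ ∀ j, A j ∣ c j := by
    intro c
    rw [hxsum, ← LinearMap.mem_ker]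
    have hrepr : ∀ j, snf.bM.repr (∑ j, c j • snf.bM j) j = c j := by
      intro j
      rw [snf.bM.repr_sum_self]
    constructor
    · intro hmem j
      by_cases hj : j ∈ Set.range snf.f
      · obtain ⟨i, rfl⟩ := hj
        rw [hAf, ← hrepr (snf.f i)]
        have h1 := snf.repr_apply_embedding_eq_repr_smul (⟨_, hmem⟩ : LinearMap.ker π) (i := i)
        rw [map_smul, Finsupp.smul_apply, smul_eq_mul] at h1
        exact ⟨_, h1⟩
      · have h1 := snf.repr_eq_zero_of_notMem_range (⟨_, hmem⟩ : LinearMap.ker π) hj
        rw [← hrepr j]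
        rw [h1]; exact dvd_zero _
    · intro hdiv
      refine Submodule.sum_mem _ fun j _ => ?_
      by_cases hj : j ∈ Set.range snf.f
      · obtain ⟨i, rfl⟩ := hj
        obtain ⟨q, hq⟩ := hdiv (snf.f i)
        rw [hAf] at hq
        rw [hq, mul_comm, mul_smul, ← snf.snf i]
        exact Submodule.smul_mem _ _ (snf.bN i).2
      · have h0 : A j = 0 := dif_neg (by simpa using hj)
        have h1 := hdiv j
        rw [h0, zero_dvd_iff] at h1
        rw [h1, zero_smul]
        exact Submodule.zero_mem _
  have hgen : AddSubgroup.closure (Set.range x) = ⊤ := by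
    have h1 : Submodule.span ℤ (Set.range x) = ⊤ := by
      have h2 : Set.range x = π '' Set.range snf.bM := by
        rw [← Set.range_comp]; rfl
      rw [h2, Submodule.span_image, snf.bM.span_eq, Submodule.map_top, hπsurj]
    rw [← Submodule.span_int_eq_addSubgroupClosure, h1]; rfl
  refine ⟨x, A, hgen, hrel, ?_⟩
  intro htop
  have h1 : (1 : ℤ) ∈ Ideal.span (Set.range A) := by rw [htop]; trivial
  rw [Ideal.mem_span_range_iff_exists_fun] at h1
  obtain ⟨l, hl⟩ := h1
  let L : (Fin r → ℤ) →ₗ[ℤ] ℤ := Fintype.linearCombination ℤ l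
  have hLapp : ∀ c, L c = ∑ j, c j * l j := fun c => by
    simp [L, Fintype.linearCombination_apply]
  have hLA : L A = 1 := by
    rw [hLapp, ← hl]
    exact Finset.sum_congr rfl fun j _ => mul_comm _ _
  have hLsurj : LinearMap.range L = ⊤ := by
    rw [eq_top_iff]
    intro z _
    exact ⟨z • A, by rw [map_smul, hLA, smul_eq_mul, mul_one]⟩
  have hfr := Submodule.finrank_quotient_add_finrank (LinearMap.ker L)
  rw [(L.quotKerEquivOfSurjective (LinearMap.range_eq_top.mp hLsurj)).finrank_eq,
    Module.finrank_self, Module.finrank_fintype_fun_eq_card, Fintype.card_fin] at hfr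
  let ψ : (Fin r → ℤ) →ₗ[ℤ] X := Fintype.linearCombination ℤ x
  have hψapp : ∀ c, ψ c = ∑ j, c j • x j := fun c => by
    simp [ψ, Fintype.linearCombination_apply]
  have hψA : ψ A = 0 := by
    rw [hψapp, hrel]; intro j; exact dvd_rfl
  let bK := Module.finBasis ℤ (LinearMap.ker L)
  let S' : Finset X := Finset.univ.image (fun i => ψ (bK i : Fin r → ℤ))
  have hS'card : S'.card ≤ r - 1 := by
    refine Finset.card_image_le.trans ?_
    rw [Finset.card_univ, Fintype.card_fin]
    omega
  have hS' : AddSubgroup.closure (S' : Set X) = ⊤ := by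
    rw [eq_top_iff]
    intro z _
    have hz : z ∈ AddSubgroup.closure (Set.range x) := by rw [hgen]; trivial
    have hz2 : z ∈ Submodule.span ℤ (Set.range x) := by
      rwa [← Submodule.mem_toAddSubgroup, Submodule.span_int_eq_addSubgroupClosure]
    rw [Submodule.mem_span_range_iff_exists_fun] at hz2
    obtain ⟨c, hc⟩ := hz2
    have hk : c - L c • A ∈ LinearMap.ker L := by
      rw [LinearMap.mem_ker, map_sub, map_smul, hLA, smul_eq_mul, mul_one, sub_self]
    have hz3 : z = ψ (c - L c • A) := by
      rw [map_sub, map_smul, hψA, smul_zero, sub_zero, hψapp, hc]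
    have h4 : (⟨c - L c • A, hk⟩ : LinearMap.ker L) = ∑ i, bK.repr ⟨c - L c • A, hk⟩ i • bK i :=
      (bK.sum_repr _).symm
    have h5 : c - L c • A = ∑ i, bK.repr ⟨c - L c • A, hk⟩ i • (bK i : Fin r → ℤ) := by
      have := congrArg (Submodule.subtype _) h4
      rw [map_sum] at this
      simpa using this
    rw [hz3, h5, map_sum]
    refine AddSubgroup.sum_mem _ fun i _ => ?_
    rw [map_smul]
    refine AddSubgroup.zsmul_mem _ (AddSubgroup.subset_closure ?_) _
    simp [S']
  have := hmin S' hS'
  omega

variable {K : Type u} [Field K] {G : Type v} [Group G] (D : Diagonalizable K G)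

/-- The level sets of a character of `G` are Zariski closed cosets. -/
theorem isClosedCoset_char (χ : D.charGroup) (t : G) :
    D.IsClosedCoset {g | χ.1 g = χ.1 t} := by
  refine ⟨t, χ.1.ker, ⟨{fun g => (χ.1 g : K) - 1}, ?_, ?_⟩, ?_⟩
  · rintro f rfl
    obtain ⟨P, hP⟩ := χ.2
    exact ⟨P - 1, fun g => by rw [map_sub, map_one, ← hP g]⟩
  · ext g
    have h1 : g ∈ (χ.1.ker : Set G) ↔ χ.1 g = 1 := MonoidHom.mem_ker
    rw [h1]
    constructor
    · rintro h f rfl
      show (χ.1 g : K) - 1 = 0
      rw [h, Units.val_one, sub_self]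
    · intro h
      have h2 := h _ rfl
      exact Units.ext (sub_eq_zero.mp h2)
  · ext x
    constructor
    · intro hx
      refine ⟨t⁻¹ * x, ?_, by simp⟩
      have hx' : χ.1 x = χ.1 t := hx
      rw [MonoidHom.mem_ker, map_mul, map_inv, hx', inv_mul_cancel]
    · rintro ⟨h, hh, rfl⟩
      show χ.1 (t * h) = χ.1 t
      rw [map_mul, MonoidHom.mem_ker.mp hh, mul_one]

variable [IsAlgClosed K]

/-- The lower bound `1 + rk(X(G)) ≤ κ(G)`. -/
theorem helly_lower {r : ℕ} (S : Finset D.charGroup) (hSc : S.card = r)
    (hS : Subgroup.closure (S : Set D.charGroup) = ⊤)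
    (hmin : ∀ S' : Finset D.charGroup, Subgroup.closure (S' : Set D.charGroup) = ⊤ →
      r ≤ S'.card) (hr : 0 < r) : ¬ D.HellyProperty r := by
  classical
  have hadd : ∀ U : Set (Additive D.charGroup),
      AddSubgroup.closure U = ⊤ ↔ Subgroup.closure (Additive.ofMul ⁻¹' U) = ⊤ := by
    intro U
    have h1 : U = Additive.toMul ⁻¹' (Additive.ofMul ⁻¹' U) := rfl
    conv_lhs => rw [h1, ← Subgroup.toAddSubgroup_closure]
    constructor
    · intro h
      apply Subgroup.toAddSubgroup.injective
      rw [h]; rfl
    · intro h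
      rw [h]; rfl
  obtain ⟨x, A, hgen, hrel, hspan⟩ := exists_diag (X := Additive D.charGroup) (r := r)
    (S.map ⟨Additive.ofMul, Additive.ofMul.injective⟩) (by rw [Finset.card_map, hSc])
    (by
      rw [hadd]
      convert hS using 2
      ext z
      simp)
    (by
      intro S' hS'
      have h1 := hmin (S'.map ⟨Additive.toMul, Additive.toMul.injective⟩) (by
        rw [hadd] at hS'
        convert hS' using 2
        ext z
        simp)
      rwa [Finset.card_map] at h1) hr
  -- a prime dividing all diagonal entries and invertible in `K`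
  obtain ⟨l, hlp, hlK, hlA⟩ : ∃ l : ℕ, l.Prime ∧ (l : K) ≠ 0 ∧ ∀ j, (l : ℤ) ∣ A j := by
    by_cases hA0 : ∀ j, A j = 0
    · by_cases h2 : (2 : K) = 0
      · refine ⟨3, Nat.prime_three, ?_, fun j => by rw [hA0 j]; exact dvd_zero _⟩
        have : (3 : K) = 1 := by
          have h3 : (3 : K) = 2 + 1 := by norm_num
          rw [h3, h2, zero_add]
        push_cast
        rw [this]
        exact one_ne_zero
      · exact ⟨2, Nat.prime_two, by exact_mod_cast h2, fun j => by rw [hA0 j]; exact dvd_zero _⟩
    · push Not at hA0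
      obtain ⟨j0, hj0⟩ := hA0
      -- a generator of the ideal
      obtain ⟨n, hn⟩ := (IsPrincipalIdealRing.principal (Ideal.span (Set.range A))).principal
      have hnA : ∀ j, n ∣ A j := by
        intro j
        have h1 : A j ∈ Ideal.span (Set.range A) := Ideal.subset_span ⟨j, rfl⟩
        rw [hn] at h1
        exact Ideal.mem_span_singleton.mp h1
      have hn1 : n.natAbs ≠ 1 := by
        intro h1
        apply hspan
        rw [hn]
        exact Ideal.span_singleton_eq_top.mpr (Int.isUnit_iff_natAbs_eq.mpr h1)
      obtain ⟨l, hlp, hln⟩ := Nat.exists_prime_and_dvd hn1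
      have hlA : ∀ j, (l : ℤ) ∣ A j := fun j => (Int.natCast_dvd.mpr hln).trans (hnA j)
      refine ⟨l, hlp, ?_, hlA⟩
      intro hl0
      -- otherwise `X(G)` would have `l`-torsion in characteristic `l`
      have : Fact l.Prime := ⟨hlp⟩
      have : CharP K l := (CharP.charP_iff_prime_eq_zero hlp).mpr hl0
      obtain ⟨q, hq⟩ := hlA j0
      have h1 : (l : ℤ) • (q • x j0) = 0 := by
        have h2 := (hrel (Pi.single j0 (A j0))).mpr (by
          intro j
          by_cases hj : j = j0
          · subst hj; rw [Pi.single_eq_same]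
          · rw [Pi.single_eq_of_ne hj]; exact dvd_zero _)
        rw [Finset.sum_eq_single j0] at h2
        · rw [Pi.single_eq_same] at h2
          rw [smul_smul, ← hq]; exact h2
        · intro j _ hj
          rw [Pi.single_eq_of_ne hj, zero_smul]
        · intro h; exact absurd (Finset.mem_univ j0) h
      have h3 : q • x j0 = 0 := by
        -- a character with trivial `l`-th power is trivial
        have h4 : ((q • x j0).toMul : D.charGroup) ^ l = 1 := by
          have := congrArg Additive.toMul h1
          rw [natCast_zsmul] at this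
          exact this
        have h5 : ((q • x j0).toMul : D.charGroup) = 1 := by
          apply Subtype.ext
          ext g
          have h6 := DFunLike.congr_fun (congrArg Subtype.val h4) g
          have h7 : ((((q • x j0).toMul : D.charGroup).1 g : Kˣ) : K) ^ l = 1 := by
            have := congrArg Units.val h6
            simpa using this
          have h8 : (((((q • x j0).toMul : D.charGroup).1 g : Kˣ) : K) - 1) ^ l = 0 := by
            rw [sub_pow_char, one_pow, h7, sub_self]
          have h9 := pow_eq_zero_iff hlp.ne_zero |>.mp h8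
          simpa using sub_eq_zero.mp h9
        exact h5
      have h10 := (hrel (Pi.single j0 q)).mp (by
        rw [Finset.sum_eq_single j0]
        · rw [Pi.single_eq_same]; exact h3
        · intro j _ hj
          rw [Pi.single_eq_of_ne hj, zero_smul]
        · intro h; exact absurd (Finset.mem_univ j0) h) j0
      rw [Pi.single_eq_same] at h10
      have hq0 : q ≠ 0 := by
        rintro rfl
        rw [mul_zero] at hq
        exact hj0 hq
      rw [hq] at h10
      have h11 := Int.natAbs_dvd_natAbs.mpr h10
      rw [Int.natAbs_mul, Int.natAbs_natCast] at h11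
      have h12 := Nat.le_of_dvd (Int.natAbs_pos.mpr hq0) h11
      have h13 : 0 < q.natAbs := Int.natAbs_pos.mpr hq0
      have h14 := hlp.two_le
      nlinarith
  -- a nontrivial `l`-th root of unity
  have : NeZero (l : K) := ⟨hlK⟩
  have : NeZero l := ⟨hlp.ne_zero⟩
  obtain ⟨z, hz⟩ := HasEnoughRootsOfUnity.exists_primitiveRoot K l
  have hzu : IsUnit z := hz.isUnit hlp.ne_zero
  obtain ⟨ζ, rfl⟩ := hzu
  have hζ1 : ζ ≠ 1 := by
    rintro rfl
    have := hz.eq_orderOf
    simp at this
    exact hlp.one_lt.ne' this
  have hζl : ζ ^ l = 1 := Units.ext (by simpa using hz.pow_eq_one)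
  -- points dual to the diagonal generators
  have hpts : ∀ j : Fin r, ∃ t : G, ∀ i, (x i).toMul.1 t = if i = j then ζ else 1 := by
    intro j
    let π : (Fin r → ℤ) →+ Additive D.charGroup :=
      { toFun := fun c => ∑ i, c i • x i
        map_zero' := by simp
        map_add' := fun a b => by simp [add_smul, Finset.sum_add_distrib] }
    let θ : (Fin r → ℤ) →+ Additive Kˣ :=
      { toFun := fun c => c j • Additive.ofMul ζ
        map_zero' := zero_smul _ _
        map_add' := fun a b => add_zsmul (Additive.ofMul ζ) (a j) (b j) }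
    have hker : π.ker ≤ θ.ker := by
      intro c hc
      have h1 := (hrel c).mp hc j
      show c j • Additive.ofMul ζ = 0
      obtain ⟨q, hq⟩ := (hlA j).trans h1
      rw [hq, mul_comm, mul_smul, natCast_zsmul, ← ofMul_pow, hζl, ofMul_one, smul_zero]
    obtain ⟨f, hf⟩ := (baer_units (K := K)).extension_property_addMonoidHom
      (QuotientAddGroup.kerLift π) (QuotientAddGroup.kerLift_injective π)
      (QuotientAddGroup.lift π.ker θ hker)
    have hfπ : ∀ c, f (π c) = θ c := fun c => DFunLike.congr_fun hf (QuotientAddGroup.mk c)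
    obtain ⟨t, ht⟩ := exists_point D
      ({ toFun := fun χ => (f (Additive.ofMul χ)).toMul
         map_one' := by rw [ofMul_one, map_zero]; rfl
         map_mul' := fun a b => by rw [ofMul_mul, map_add]; rfl } : D.charGroup →* Kˣ)
    refine ⟨t, fun i => ?_⟩
    rw [ht]
    show (f (x i)).toMul = _
    have h1 : π (Pi.single i 1) = x i := by
      show ∑ k, (Pi.single i 1 : Fin r → ℤ) k • x k = x i
      rw [Finset.sum_eq_single i]
      · rw [Pi.single_eq_same, one_smul]
      · intro k _ hk
        rw [Pi.single_eq_of_ne hk, zero_smul]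
      · intro h; exact absurd (Finset.mem_univ i) h
    rw [← h1, hfπ]
    show ((Pi.single i 1 : Fin r → ℤ) j • Additive.ofMul ζ).toMul = _
    by_cases hij : i = j
    · subst hij
      rw [Pi.single_eq_same, one_smul, if_pos rfl]; rfl
    · rw [Pi.single_eq_of_ne (Ne.symm hij), zero_smul, if_neg hij]; rfl
  choose t ht using hpts
  -- characters cutting out the cosets
  let χ : Fin r → D.charGroup := fun i => (x i).toMul
  let χ0 : D.charGroup := ∏ i, χ i
  have hχ0 : ∀ g : G, χ0.1 g = ∏ i, (χ i).1 g := by
    intro g
    simp [χ0]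
  let C : Fin (r + 1) → Set G := Fin.cons {g | χ0.1 g = ζ} (fun i => {g | (χ i).1 g = 1})
  have hχ0t : ∀ j, χ0.1 (t j) = ζ := by
    intro j
    rw [hχ0, Finset.prod_eq_single j]
    · rw [ht j j, if_pos rfl]
    · intro i _ hi
      rw [ht j i, if_neg hi]
    · intro h; exact absurd (Finset.mem_univ j) h
  intro hH
  obtain ⟨T, hTcard, hT⟩ := hH (r + 1) C
    (by
      intro k
      refine Fin.cases ?_ (fun i => ?_) k
      · have h1 := isClosedCoset_char D χ0 (t ⟨0, hr⟩)
        rw [hχ0t] at h1
        exact h1
      · have h1 := isClosedCoset_char D (χ i) 1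
        rw [map_one] at h1
        exact h1)
    (by
      rw [Set.eq_empty_iff_forall_notMem]
      rintro g hgC
      rw [Set.mem_iInter] at hgC
      have h0 : χ0.1 g = ζ := hgC 0
      have h1 : ∀ i : Fin r, (χ i).1 g = 1 := fun i => hgC i.succ
      rw [hχ0] at h0
      rw [Finset.prod_congr rfl fun i _ => h1 i, Finset.prod_const_one] at h0
      exact hζ1 h0.symm)
  -- some index is missing from `T`
  obtain ⟨k, hk⟩ : ∃ k, k ∉ T := by
    by_contra hcon
    push Not at hcon
    have h1 : T = Finset.univ := Finset.eq_univ_iff_forall.mpr hcon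
    rw [h1, Finset.card_univ, Fintype.card_fin] at hTcard
    omega
  revert hk
  refine Fin.cases ?_ (fun j => ?_) k
  · intro hk
    have h1 : (1 : G) ∈ ⋂ i ∈ T, C i := by
      refine Set.mem_iInter₂.mpr fun i hi => ?_
      revert hi
      refine Fin.cases ?_ (fun i' => ?_) i
      · intro hi; exact absurd hi hk
      · intro _
        exact map_one (χ i').1
    rw [hT] at h1
    exact h1
  · intro hk
    have h1 : t j ∈ ⋂ i ∈ T, C i := by
      refine Set.mem_iInter₂.mpr fun i hi => ?_
      revert hi
      refine Fin.cases ?_ (fun i' => ?_) i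
      · intro _
        exact hχ0t j
      · intro hi
        have hne : i' ≠ j := by
          rintro rfl; exact hk hi
        have h2 := ht j i'
        rw [if_neg hne] at h2
        exact h2
    rw [hT] at h1
    exact h1

end Lower

/-- **Helly dimension of diagonalizable groups.**  For every algebraically closed field `K` and
every diagonalizable group `G` over `K`, the character group `X(G)` is finitely generated and
the least positive integer `d` such that every finite family of Zariski closed cosets in `G`
with empty intersection has a subfamily of at most `d` members with empty intersection is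
`1 + rk(X(G))`, where `rk` is the minimal number of generators. -/
theorem result (K : Type u) [Field K] [IsAlgClosed K] (G : Type v) [Group G]
    (D : Diagonalizable K G) :
    ∃ _ : Group.FG D.charGroup,
      IsLeast {d : ℕ | 0 < d ∧ D.HellyProperty d} (1 + Group.rank D.charGroup) := by
  have hfg := charGroup_fg D
  refine ⟨hfg, ?_⟩
  obtain ⟨S, hScard, hS⟩ := Group.rank_spec D.charGroup
  refine ⟨⟨by omega, ?_⟩, ?_⟩
  · rw [← hScard]
    exact helly_upper D S hS
  · rintro d ⟨hd0, hd⟩
    by_contra hlt
    push Not at hlt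
    have hr : 0 < Group.rank D.charGroup := by omega
    refine helly_lower D S hScard hS (fun S' hS' => Group.rank_le hS') hr ?_
    -- monotonicity in `d`
    intro m C hC he
    obtain ⟨T, hT, hTe⟩ := hd m C hC he
    exact ⟨T, by omega, hTe⟩

end Pool.Agent.Results.MP_baf67b_al.HellyDim
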